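import Mathlib
import Pool.Agent.Helper153.FrkM
set_option autoImplicit false
open Finset

namespace Pool.Agent.Results.MP_f155e9_co.Ranges

/-- Antichains `F` of subsets of an `n`-set with `|A Δ B| ≤ n - k` for all members:
the conjectured bound `|F| ≤ C(n, ⌈(n+k)/2⌉)` in several ranges, and two bounds valid more widely. -/
theorem result (n k : ℕ) (hk : 1 ≤ k) (hkn : k ≤ n) (F : Finset (Finset (Fin n)))
    (hF : IsAntichain (· ⊆ ·) (F : Set (Finset (Fin n))))
    (hd : ∀ A ∈ F, ∀ B ∈ F, (symmDiff A B).card ≤ n - k) :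
    (2 * (n - k) ^ 2 ≤ n → F.card ≤ n.choose ((n + k + 1) / 2)) ∧
    (Even (n - k) → k ^ 2 ≤ n → F.card ≤ n.choose ((n + k + 1) / 2)) ∧
    (n - k ≤ 4 → F.card ≤ n.choose ((n + k + 1) / 2)) ∧
    (∀ m, (∀ A ∈ F, m ≤ A.card ∧ A.card ≤ m + 2) → F.card ≤ n.choose ((n + k + 1) / 2)) ∧
    (∀ L, 2 ≤ L → L * (n - k) ≤ n → (F.image Finset.card).card ≤ L →
      (∀ A ∈ F, (n - k) / 2 < A.card ∧ A.card + (n - k) / 2 + 2 ≤ n) →
      F.card ≤ n.choose ((n + k + 1) / 2)) ∧
    (k ^ 2 ≤ n → 2 * F.card ≤ n.choose ((n - k) / 2) + n.choose ((n - k + 1) / 2)) ∧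
    F.card ≤ ∑ s ∈ range ((n - k) / 2 + 1), n.choose s := by
  refine ⟨fun h => FrM.large n k hk hkn F hF hd h, fun he h2 => ?_,
    fun h => FrM.small_diam n k hk hkn F hF hd h,
    fun m hm => FrM.three_sizes n k m hk hkn F hF hd hm, fun L hL h1 h2 h3 => ?_,
    fun h => FrM.chain2 n k hk hkn F hF hd h, FrM.general n k F hF hd⟩
  · have h := FrM.chain2 n k hk hkn F hF hd h2
    rw [FrM.choose_symm' n k hkn]
    obtain ⟨r, hr⟩ := he
    have e1 : (n - k) / 2 = r := by omega
    have e2 : (n - k + 1) / 2 = r := by omega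
    rw [e1, e2] at h
    rw [e1]
    omega
  · by_cases h4 : n - k ≤ 4
    · exact FrM.small_diam n k hk hkn F hF hd h4
    · rw [FrM.choose_symm' n k hkn]
      obtain ⟨r, hr⟩ : ∃ r, r = (n - k) / 2 := ⟨_, rfl⟩
      rw [← hr] at h3 ⊢
      apply FrM.few_sizes n r L (by omega) hL _ F hF
      · intro A hA B hB
        have := hd A hA B hB
        omega
      · intro A hA
        have := h3 A hA
        omega
      · exact h2
      · have h5 : 2 * r ≤ n - k := by omega
        calc 2 * L * r = L * (2 * r) := by ring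
          _ ≤ L * (n - k) := Nat.mul_le_mul_left _ h5
          _ ≤ n := h1

end Pool.Agent.Results.MP_f155e9_co.Ranges
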